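import Pool.Agent.H48.RG.Targets
import Pool.Agent.H48.RG.Mol

set_option autoImplicit false

namespace Pool.Agent.H94.RG

open MeasureTheory Metric Set Filter Topology Pool.Agent.H87.SN Pool.Agent.H48.RG
open scoped ContDiff RealInnerProductSpace ENNReal

theorem lim_int {n : ℕ} {G : Type*} [NormedAddCommGroup G] (g : ℕ → E n → G)
    (S : Set (E n)) (hg : ∀ k, AEStronglyMeasurable (g k) volume)
    (h : Tendsto (fun k => ∫⁻ x, ‖g k x‖ₑ) atTop (𝓝 0)) :
    Tendsto (fun k => ∫ x in S, ‖g k x‖) atTop (𝓝 0) := by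
  have e : ∀ k, ∫ x in S, ‖g k x‖ = (∫⁻ x in S, ‖g k x‖ₑ).toReal := fun k =>
    integral_norm_eq_lintegral_enorm (hg k).restrict
  simp only [e]
  have h1 : Tendsto (fun k => ∫⁻ x in S, ‖g k x‖ₑ) atTop (𝓝 0) :=
    tendsto_of_tendsto_of_tendsto_of_le_of_le tendsto_const_nhds h (fun k => zero_le)
      (fun k => setLIntegral_le_lintegral _ _)
  have h2 := (ENNReal.tendsto_toReal ENNReal.zero_ne_top).comp h1
  rw [ENNReal.toReal_zero] at h2
  exact h2

theorem grad_mol {n : ℕ} {f : E n → ℝ} {D : E n → E n} (hw : WG (ball 0 1) f D)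
    (hf : Integrable ((ball (0 : E n) 1).indicator f)) (hD : Integrable ((ball (0 : E n) 1).indicator D))
    (m : ℕ) (x : E n) (hx : ‖x‖ + 1 / ((m : ℝ) + 1) < 1) :
    gradient (mol (rh n m) ((ball (0 : E n) 1).indicator f)) x =
      mol (rh n m) ((ball (0 : E n) 1).indicator D) x := by
  refine ext_inner_right ℝ fun v => ?_
  have hg : ⟪gradient (mol (rh n m) ((ball (0 : E n) 1).indicator f)) x, v⟫ =
      fderiv ℝ (mol (rh n m) ((ball (0 : E n) 1).indicator f)) x v := by
    unfold gradient
    rw [InnerProductSpace.toDual_symm_apply]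
  rw [hg, fderiv_mol (rh_smooth m) (rh_cpt m) hf.locallyIntegrable, mol_eq]
  set ψ : E n → ℝ := fun t => rh n m (x - t) with hψ
  have hψc : ContDiff ℝ ∞ ψ := (rh_smooth m).comp (contDiff_const.sub contDiff_id)
  have hψs : HasCompactSupport ψ := (rh_cpt m).comp_homeomorph (Homeomorph.subLeft x)
  have hψ0 : Function.support ψ ⊆ closedBall x (1 / ((m : ℝ) + 1)) := by
    intro t ht
    have h2 : x - t ∈ tsupport (rh n m) := subset_tsupport _ ht
    rw [rh_tsupport, mem_closedBall_zero_iff] at h2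
    rw [mem_closedBall, dist_eq_norm, norm_sub_rev]
    exact h2
  have hψt : tsupport ψ ⊆ ball 0 1 := by
    refine (closure_minimal hψ0 isClosed_closedBall).trans ?_
    intro t ht
    rw [mem_closedBall, dist_eq_norm] at ht
    rw [mem_ball_zero_iff]
    have : ‖t‖ ≤ ‖t - x‖ + ‖x‖ := by simpa using norm_add_le (t - x) x
    linarith
  have hT : Tst (ball 0 1) ψ := ⟨hψc, hψs, hψt⟩
  have hfd : ∀ t, fderiv ℝ ψ t v = - fderiv ℝ (rh n m) (x - t) v := by
    intro t
    have h1 : HasFDerivAt (fun t : E n => x - t) (-(ContinuousLinearMap.id ℝ (E n))) t := by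
      simpa using (hasFDerivAt_id t).const_sub x
    have h2 : HasFDerivAt (rh n m) (fderiv ℝ (rh n m) (x - t)) (x - t) :=
      ((rh_smooth m).differentiable (by simp) _).hasFDerivAt
    have h3 := h2.comp t h1
    have h4 : fderiv ℝ ψ t = (fderiv ℝ (rh n m) (x - t)).comp (-(ContinuousLinearMap.id ℝ (E n))) :=
      h3.fderiv
    rw [h4]
    simp
  have hwv := hw ψ hT v
  have e1 : ∀ t, (fderiv ℝ (rh n m) (x - t) v) • (ball (0 : E n) 1).indicator f t =
      - (fderiv ℝ ψ t v * f t) := by
    intro t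
    by_cases ht : t ∈ ball (0 : E n) 1
    · rw [indicator_of_mem ht, hfd, smul_eq_mul]; ring
    · rw [indicator_of_notMem ht, smul_zero]
      have h0 : fderiv ℝ ψ t = 0 := fderiv_of_notMem_tsupport ℝ fun h => ht (hψt h)
      rw [h0]; simp
  have e2 : ∀ t, ψ t * ⟪D t, v⟫ = ⟪ψ t • (ball (0 : E n) 1).indicator D t, v⟫ := by
    intro t
    by_cases ht : t ∈ ball (0 : E n) 1
    · rw [indicator_of_mem ht, real_inner_smul_left]
    · have h0 : ψ t = 0 := by
        by_contra h
        exact ht (hψt (subset_tsupport _ h))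
      rw [h0]; simp
  rw [integral_congr_ae (Eventually.of_forall e1), integral_neg, hwv, neg_neg,
    integral_congr_ae (Eventually.of_forall e2)]
  have hi : Integrable (fun t => ψ t • (ball (0 : E n) 1).indicator D t) :=
    mol_int hD.locallyIntegrable x
  have h5 : ∫ t, ⟪v, ψ t • (ball (0 : E n) 1).indicator D t⟫ =
      ⟪v, ∫ t, ψ t • (ball (0 : E n) 1).indicator D t⟫ := integral_inner hi v
  have h6 : ∫ t, ⟪ψ t • (ball (0 : E n) 1).indicator D t, v⟫ =
      ∫ t, ⟪v, ψ t • (ball (0 : E n) 1).indicator D t⟫ :=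
    integral_congr_ae (Eventually.of_forall fun t => real_inner_comm _ _)
  rw [h6, h5]
  exact real_inner_comm _ _

theorem wb_int {n : ℕ} {f : E n → ℝ} {D : E n → E n} (h : WB (ball 0 1) f D) :
    Integrable ((ball (0 : E n) 1).indicator f) ∧ Integrable ((ball (0 : E n) 1).indicator D) := by
  have : IsFiniteMeasure (volume.restrict (ball (0 : E n) 1)) :=
    ⟨by rw [Measure.restrict_apply_univ]; exact measure_ball_lt_top⟩
  rw [integrable_indicator_iff measurableSet_ball, integrable_indicator_iff measurableSet_ball]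
  refine ⟨?_, h.d2.integrable (by norm_num)⟩
  obtain ⟨B, hB⟩ := h.bd
  exact Integrable.of_bound h.ms B hB

theorem pf_APX : T_APX := by
  intro n r f D hr h
  obtain ⟨hf, hD⟩ := wb_int h
  refine ⟨fun k => mol (rh n k) ((ball (0 : E n) 1).indicator f), fun k =>
    contDiff_mol (rh_smooth k) (rh_cpt k) hf.locallyIntegrable, ?_, ?_⟩
  · have h1 := lim_int (fun k x => mol (rh n k) ((ball (0 : E n) 1).indicator f) x -
      (ball (0 : E n) 1).indicator f x) (closedBall 0 r)
      (fun k => (aesm_mol hf.locallyIntegrable k).sub hf.1) (mol_tendsto_l1 hf)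
    refine h1.congr fun k => setIntegral_congr_fun measurableSet_closedBall fun x hx => ?_
    have hx' : x ∈ ball (0 : E n) 1 := closedBall_subset_ball hr hx
    simp only [indicator_of_mem hx', Real.norm_eq_abs]
  · have h1 := lim_int (fun k x => mol (rh n k) ((ball (0 : E n) 1).indicator D) x -
      (ball (0 : E n) 1).indicator D x) (closedBall 0 r)
      (fun k => (aesm_mol hD.locallyIntegrable k).sub hD.1) (mol_tendsto_l1 hD)
    refine h1.congr' ?_
    have hlim : Tendsto (fun m : ℕ => 1 / ((m : ℝ) + 1)) atTop (𝓝 0) :=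
      tendsto_one_div_add_atTop_nhds_zero_nat
    filter_upwards [hlim.eventually (gt_mem_nhds (show (0 : ℝ) < 1 - r by linarith))] with k hk
    refine setIntegral_congr_fun measurableSet_closedBall fun x hx => ?_
    have hx' : x ∈ ball (0 : E n) 1 := closedBall_subset_ball hr hx
    rw [mem_closedBall_zero_iff] at hx
    change ‖mol (rh n k) ((ball (0 : E n) 1).indicator D) x - (ball (0 : E n) 1).indicator D x‖ =
      ‖gradient (mol (rh n k) ((ball (0 : E n) 1).indicator f)) x - D x‖
    rw [grad_mol h.wg hf hD k x (by linarith), indicator_of_mem hx']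

end Pool.Agent.H94.RG
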