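import Pool.Agent.H48.RG.Targets

set_option autoImplicit false

namespace Pool.Agent.H94.RG

open MeasureTheory Metric Set Filter Topology Pool.Agent.H87.SN Pool.Agent.H48.RG
open scoped ContDiff RealInnerProductSpace ENNReal

theorem pf_EXT : T_EXT := by
  intro n ρ f D hρ0 hρ1 h hoff
  have hsub : closedBall (0 : E n) ρ ⊆ ball 0 1 := closedBall_subset_ball hρ1
  have hoff' : ∀ x, x ∉ ball (0 : E n) 1 → f x = 0 ∧ D x = 0 := fun x hx =>
    hoff x fun hx' => hx (hsub hx')
  have hfi : (ball (0 : E n) 1).indicator f = f := by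
    rw [Set.indicator_eq_self]
    intro x hx
    by_contra hx'
    exact hx (hoff' x hx').1
  have hDi : (ball (0 : E n) 1).indicator D = D := by
    rw [Set.indicator_eq_self]
    intro x hx
    by_contra hx'
    exact hx (hoff' x hx').2
  refine ⟨⟨?_, ?_, ?_, ?_⟩, hoff⟩
  · rw [Measure.restrict_univ, ← hfi, aestronglyMeasurable_indicator_iff measurableSet_ball]
    exact h.ms
  · obtain ⟨B, hB⟩ := h.bd
    refine ⟨max B 0, ?_⟩
    rw [Measure.restrict_univ]
    rw [ae_restrict_iff' measurableSet_ball] at hB
    filter_upwards [hB] with x hx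
    by_cases hx' : x ∈ ball (0 : E n) 1
    · exact (hx hx').trans (le_max_left _ _)
    · rw [(hoff' x hx').1, abs_zero]
      exact le_max_right _ _
  · rw [Measure.restrict_univ, ← hDi, memLp_indicator_iff_restrict measurableSet_ball]
    exact h.d2
  · intro φ hφ v
    let χ : ContDiffBump (0 : E n) :=
      { rIn := (1 + 2 * ρ) / 3
        rOut := (2 + ρ) / 3
        rIn_pos := by positivity
        rIn_lt_rOut := by linarith }
    have hχs : tsupport (χ : E n → ℝ) = closedBall 0 ((2 + ρ) / 3) := χ.tsupport_eq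
    have hT : Tst (ball 0 1) (fun x => χ x * φ x) := by
      refine ⟨χ.contDiff.mul hφ.1, ?_, ?_⟩
      · exact χ.hasCompactSupport.mul_right
      · refine (closure_mono ?_ : tsupport (fun x => χ x * φ x) ⊆ tsupport (χ : E n → ℝ)).trans ?_
        · intro x hx
          rw [Function.mem_support] at hx ⊢
          exact left_ne_zero_of_mul hx
        · change tsupport (χ : E n → ℝ) ⊆ ball 0 1
          rw [hχs]
          exact closedBall_subset_ball (by linarith)
    have hw := h.wg _ hT v
    have hloc : ∀ x ∈ closedBall (0 : E n) ρ, (fun y => χ y * φ y) =ᶠ[𝓝 x] φ := by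
      intro x hx
      have h1 : ball (0 : E n) ((1 + 2 * ρ) / 3) ∈ 𝓝 x := by
        refine isOpen_ball.mem_nhds ?_
        rw [mem_ball_zero_iff]
        rw [mem_closedBall_zero_iff] at hx
        linarith
      filter_upwards [h1] with y hy
      have h2 : χ y = 1 := χ.one_of_mem_closedBall (ball_subset_closedBall hy)
      rw [h2, one_mul]
    have e1 : ∀ x, fderiv ℝ φ x v * f x = fderiv ℝ (fun y => χ y * φ y) x v * f x := by
      intro x
      by_cases hx : x ∈ closedBall (0 : E n) ρ
      · rw [(hloc x hx).fderiv_eq]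
      · rw [(hoff x hx).1, mul_zero, mul_zero]
    have e2 : ∀ x, φ x * ⟪D x, v⟫ = χ x * φ x * ⟪D x, v⟫ := by
      intro x
      by_cases hx : x ∈ closedBall (0 : E n) ρ
      · have := (hloc x hx).self_of_nhds
        simp only at this
        rw [this]
      · rw [(hoff x hx).2, inner_zero_left, mul_zero, mul_zero]
    calc ∫ x, fderiv ℝ φ x v * f x = ∫ x, fderiv ℝ (fun y => χ y * φ y) x v * f x :=
          integral_congr_ae (Eventually.of_forall e1)
      _ = - ∫ x, χ x * φ x * ⟪D x, v⟫ := hw
      _ = - ∫ x, φ x * ⟪D x, v⟫ := by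
          rw [integral_congr_ae (Eventually.of_forall e2)]

end Pool.Agent.H94.RG
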