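import Pool.Agent.H48.RG.Targets
import Pool.Agent.H48.RG.Mol

set_option autoImplicit false

namespace Pool.Agent.H94.RG

open MeasureTheory Metric Set Filter Topology Pool.Agent.H87.SN Pool.Agent.H48.RG
open scoped ContDiff RealInnerProductSpace ENNReal

theorem norm_grad {n : ℕ} (F : E n → ℝ) (x : E n) : ‖gradient F x‖ = ‖fderiv ℝ F x‖ := by
  unfold gradient
  exact LinearIsometryEquiv.norm_map _ _

theorem cont_grad {n : ℕ} {F : E n → ℝ} (hF : ContDiff ℝ 1 F) : Continuous (gradient F) := by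
  have h : gradient F = fun x => (InnerProductSpace.toDual ℝ (E n)).symm (fderiv ℝ F x) := rfl
  rw [h]
  exact (InnerProductSpace.toDual ℝ (E n)).symm.continuous.comp (hF.continuous_fderiv (by norm_num))

theorem poi_smooth {n : ℕ} {F : E n → ℝ} (hF : ContDiff ℝ 1 F) (y : E n) {s : ℝ} (hs : 0 < s) :
    ∫ x in closedBall y s, |F x - ⨍ z in closedBall y s, F z| ≤
      2 ^ (n + 1) * s * ∫ x in closedBall y s, ‖gradient F x‖ := by
  set S : Set (E n) := closedBall y s with hS
  have hSc : IsCompact S := isCompact_closedBall _ _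
  have hconv : Convex ℝ S := convex_closedBall _ _
  have hV0 : volume S ≠ 0 := by
    have h1 : 0 < volume (ball y s) := measure_ball_pos _ _ hs
    exact (h1.trans_le (measure_mono ball_subset_closedBall)).ne'
  have hVt : volume S ≠ ⊤ := hSc.measure_ne_top
  have hVr : 0 < (volume S).toReal := ENNReal.toReal_pos hV0 hVt
  have hd : ∀ a ∈ S, ∀ b ∈ S, ‖b - a‖ ≤ 2 * s := by
    intro a ha b hb
    rw [hS, mem_closedBall, dist_eq_norm] at ha hb
    have : b - a = (b - y) - (a - y) := by abel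
    rw [this]
    refine (norm_sub_le _ _).trans ?_
    linarith
  have hdl := double_le hSc hconv hd hF
  have hFi : IntegrableOn F S := hF.continuous.continuousOn.integrableOn_compact hSc
  have hc : ∀ c : ℝ, IntegrableOn (fun _ : E n => c) S := fun c => integrableOn_const hVt
  have hav : ∀ z, F z - ⨍ w in S, F w = (volume S).toReal⁻¹ * ∫ w in S, (F z - F w) := by
    intro z
    rw [setAverage_eq, integral_sub (hc (F z)) hFi, setIntegral_const,
      smul_eq_mul, smul_eq_mul, Measure.real]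
    field_simp
  have hen : ∀ z, ‖F z - ⨍ w in S, F w‖ₑ ≤ (volume S)⁻¹ * ∫⁻ w in S, ‖F z - F w‖ₑ := by
    intro z
    rw [hav z, enorm_mul]
    have h1 : ‖(volume S).toReal⁻¹‖ₑ = (volume S)⁻¹ := by
      rw [← ENNReal.toReal_inv, Real.enorm_eq_ofReal ENNReal.toReal_nonneg,
        ENNReal.ofReal_toReal (ENNReal.inv_ne_top.2 hV0)]
    rw [h1]
    gcongr
    exact enorm_integral_le_lintegral_enorm _
  have hgr : ∫⁻ z in S, ‖gradient F z‖ₑ = ∫⁻ z in S, ‖fderiv ℝ F z‖ₑ := by
    refine lintegral_congr fun z => ?_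
    rw [← ofReal_norm, norm_grad, ofReal_norm]
  have hmain : ∫⁻ z in S, ‖F z - ⨍ w in S, F w‖ₑ ≤
      ENNReal.ofReal (2 ^ (n + 1) * s) * ∫⁻ z in S, ‖gradient F z‖ₑ := by
    calc ∫⁻ z in S, ‖F z - ⨍ w in S, F w‖ₑ
        ≤ ∫⁻ z in S, (volume S)⁻¹ * ∫⁻ w in S, ‖F z - F w‖ₑ := lintegral_mono hen
      _ = (volume S)⁻¹ * ∫⁻ z in S, ∫⁻ w in S, ‖F z - F w‖ₑ :=
          lintegral_const_mul' _ _ (ENNReal.inv_ne_top.2 hV0)
      _ ≤ (volume S)⁻¹ * (ENNReal.ofReal (2 * s) *
          (ENNReal.ofReal (2 ^ Module.finrank ℝ (E n)) * volume S) *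
          ∫⁻ z in S, ‖fderiv ℝ F z‖ₑ) := by gcongr
      _ = ((volume S)⁻¹ * volume S) * (ENNReal.ofReal (2 * s) *
          ENNReal.ofReal (2 ^ Module.finrank ℝ (E n))) * ∫⁻ z in S, ‖fderiv ℝ F z‖ₑ := by ring
      _ = ENNReal.ofReal (2 ^ (n + 1) * s) * ∫⁻ z in S, ‖gradient F z‖ₑ := by
          rw [ENNReal.inv_mul_cancel hV0 hVt, one_mul, ← ENNReal.ofReal_mul (by positivity),
            finrank_euclideanSpace_fin, hgr]
          congr 2
          ring
  have hgi : IntegrableOn (fun z => gradient F z) S :=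
    (cont_grad hF).continuousOn.integrableOn_compact hSc
  have hfin : ∫⁻ z in S, ‖gradient F z‖ₑ ≠ ⊤ := hgi.2.ne
  have e1 : ∫ x in S, |F x - ⨍ z in S, F z| = (∫⁻ z in S, ‖F z - ⨍ w in S, F w‖ₑ).toReal := by
    have := integral_norm_eq_lintegral_enorm (μ := volume.restrict S)
      (f := fun z => F z - ⨍ w in S, F w) (hF.continuous.sub continuous_const).aestronglyMeasurable
    simpa only [Real.norm_eq_abs] using this
  have e2 : ∫ x in S, ‖gradient F x‖ = (∫⁻ z in S, ‖gradient F z‖ₑ).toReal :=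
    integral_norm_eq_lintegral_enorm hgi.1
  rw [e1, e2, ← ENNReal.toReal_ofReal (show (0 : ℝ) ≤ 2 ^ (n + 1) * s by positivity),
    ← ENNReal.toReal_mul]
  exact ENNReal.toReal_mono (ENNReal.mul_ne_top ENNReal.ofReal_ne_top hfin) hmain

theorem wb_int' {n : ℕ} {f : E n → ℝ} {D : E n → E n} (h : WB (ball 0 1) f D) :
    IntegrableOn f (ball (0 : E n) 1) ∧ IntegrableOn D (ball (0 : E n) 1) := by
  have : IsFiniteMeasure (volume.restrict (ball (0 : E n) 1)) :=
    ⟨by rw [Measure.restrict_apply_univ]; exact measure_ball_lt_top⟩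
  refine ⟨?_, h.d2.integrable (by norm_num)⟩
  obtain ⟨B, hB⟩ := h.bd
  exact Integrable.of_bound h.ms B hB

theorem pf_POI (hA : T_APX) : T_POI := by
  intro n
  refine ⟨2 ^ (n + 1), by positivity, fun f D h y s hs hys => ?_⟩
  obtain ⟨F, hF, h1, h2⟩ := hA n (‖y‖ + s) f D hys h
  obtain ⟨hf, hD⟩ := wb_int' h
  set S : Set (E n) := closedBall y s with hS
  set T : Set (E n) := closedBall 0 (‖y‖ + s) with hT
  have hST : S ⊆ T := by
    intro x hx
    rw [hS, mem_closedBall, dist_eq_norm] at hx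
    rw [hT, mem_closedBall_zero_iff]
    have : ‖x‖ ≤ ‖x - y‖ + ‖y‖ := by simpa using norm_add_le (x - y) y
    linarith
  have hTB : T ⊆ ball 0 1 := closedBall_subset_ball hys
  have hTc : IsCompact T := isCompact_closedBall _ _
  have hSc : IsCompact S := isCompact_closedBall _ _
  have hVt : volume S ≠ ⊤ := hSc.measure_ne_top
  have hV0 : volume S ≠ 0 := by
    have h1 : 0 < volume (ball y s) := measure_ball_pos _ _ hs
    exact (h1.trans_le (measure_mono ball_subset_closedBall)).ne'
  have hVr : 0 < (volume S).toReal := ENNReal.toReal_pos hV0 hVt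
  have hFT : ∀ k, IntegrableOn (F k) T := fun k =>
    (hF k).continuous.continuousOn.integrableOn_compact hTc
  have hF1 : ∀ k, ContDiff ℝ 1 (F k) := fun k => (hF k).of_le (by simp)
  have hGT : ∀ k, IntegrableOn (gradient (F k)) T := fun k =>
    (cont_grad (hF1 k)).continuousOn.integrableOn_compact hTc
  have hfT : IntegrableOn f T := hf.mono_set hTB
  have hDT : IntegrableOn D T := hD.mono_set hTB
  have ha : Tendsto (fun k => ∫ x in S, |F k x - f x|) atTop (𝓝 0) := by
    refine squeeze_zero (fun k => integral_nonneg fun x => abs_nonneg _) (fun k => ?_) h1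
    exact setIntegral_mono_set ((hFT k).sub hfT).abs
      (Eventually.of_forall fun x => abs_nonneg _) hST.eventuallyLE
  have hb : Tendsto (fun k => ∫ x in S, ‖gradient (F k) x - D x‖) atTop (𝓝 0) := by
    refine squeeze_zero (fun k => integral_nonneg fun x => norm_nonneg _) (fun k => ?_) h2
    exact setIntegral_mono_set ((hGT k).sub hDT).norm
      (Eventually.of_forall fun x => norm_nonneg _) hST.eventuallyLE
  have hfS := hfT.mono_set hST
  have hDS := hDT.mono_set hST
  have hFS := fun k => (hFT k).mono_set hST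
  have hGS := fun k => (hGT k).mono_set hST
  have hlim : Tendsto (fun k => 2 * (∫ x in S, |F k x - f x|) + 2 ^ (n + 1) * s *
      ((∫ x in S, ‖D x‖) + ∫ x in S, ‖gradient (F k) x - D x‖)) atTop
      (𝓝 (2 * 0 + 2 ^ (n + 1) * s * ((∫ x in S, ‖D x‖) + 0))) :=
    (ha.const_mul 2).add ((hb.const_add _).const_mul _)
  rw [mul_zero, zero_add, add_zero] at hlim
  refine ge_of_tendsto' hlim fun k => ?_
  have hc : ∀ c : ℝ, IntegrableOn (fun _ : E n => c) S := fun c => integrableOn_const hVt
  have hp := poi_smooth (hF1 k) y hs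
  have hav : |(⨍ z in S, F k z) - ⨍ z in S, f z| * (volume S).toReal ≤ ∫ x in S, |F k x - f x| := by
    have e : (⨍ z in S, F k z) - ⨍ z in S, f z = (volume S).toReal⁻¹ * ∫ x in S, (F k x - f x) := by
      rw [setAverage_eq, setAverage_eq, integral_sub (hFS k) hfS, smul_eq_mul, smul_eq_mul,
        Measure.real]
      ring
    rw [e, abs_mul, abs_inv, abs_of_pos hVr]
    have h3 : |∫ x in S, (F k x - f x)| ≤ ∫ x in S, |F k x - f x| := abs_integral_le_integral_abs
    calc (volume S).toReal⁻¹ * |∫ x in S, (F k x - f x)| * (volume S).toReal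
        = |∫ x in S, (F k x - f x)| := by field_simp
      _ ≤ _ := h3
  have hstep : ∫ x in S, |f x - ⨍ z in S, f z| ≤
      ∫ x in S, (|F k x - f x| + (|F k x - ⨍ z in S, F k z| +
        |(⨍ z in S, F k z) - ⨍ z in S, f z|)) := by
    refine integral_mono_ae ((hfS.sub (hc _)).abs) (((hFS k).sub hfS).abs.add
      (((hFS k).sub (hc _)).abs.add (hc _))) (Eventually.of_forall fun x => ?_)
    have e : f x - ⨍ z in S, f z = -(F k x - f x) + ((F k x - ⨍ z in S, F k z) +
      ((⨍ z in S, F k z) - ⨍ z in S, f z)) := by ring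
    simp only
    calc |f x - ⨍ z in S, f z| ≤ |-(F k x - f x)| + |(F k x - ⨍ z in S, F k z) +
          ((⨍ z in S, F k z) - ⨍ z in S, f z)| := by rw [e]; exact abs_add_le _ _
      _ ≤ _ := by
          rw [abs_neg]
          gcongr
          exact abs_add_le _ _
  have i1 : IntegrableOn (fun x => |F k x - f x|) S := ((hFS k).sub hfS).abs
  have i2 : IntegrableOn (fun x => |F k x - ⨍ z in S, F k z|) S := ((hFS k).sub (hc _)).abs
  have i3 : IntegrableOn (fun _ : E n => |(⨍ z in S, F k z) - ⨍ z in S, f z|) S := hc _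
  have i23 : IntegrableOn (fun x => |F k x - ⨍ z in S, F k z| +
    |(⨍ z in S, F k z) - ⨍ z in S, f z|) S := i2.add i3
  rw [integral_add i1 i23, integral_add i2 i3, setIntegral_const, smul_eq_mul] at hstep
  have hgd : ∫ x in S, ‖gradient (F k) x‖ ≤
      (∫ x in S, ‖D x‖) + ∫ x in S, ‖gradient (F k) x - D x‖ := by
    have j1 : IntegrableOn (fun x => ‖D x‖) S := hDS.norm
    have j2 : IntegrableOn (fun x => ‖gradient (F k) x - D x‖) S := ((hGS k).sub hDS).norm
    rw [← integral_add j1 j2]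
    refine integral_mono_ae (hGS k).norm (j1.add j2) (Eventually.of_forall fun x => ?_)
    have := norm_add_le (D x) (gradient (F k) x - D x)
    simp only [add_sub_cancel] at this
    exact this
  have hmul : 2 ^ (n + 1) * s * ∫ x in S, ‖gradient (F k) x‖ ≤ 2 ^ (n + 1) * s *
      ((∫ x in S, ‖D x‖) + ∫ x in S, ‖gradient (F k) x - D x‖) := by
    gcongr
  have hreal : volume.real S = (volume S).toReal := rfl
  rw [hreal, mul_comm (volume S).toReal] at hstep
  linarith

end Pool.Agent.H94.RG
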